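import Pool.Agent.helper84.HF.SpecH
import Pool.Agent.helper62.MS.SpecG

/-!
# MP_07c750 (quantum unique ergodicity, weight 10), project HALF: block G (geometry; Part IV of the page), rows `hf:X`

Page with the whole proof: /team-store/HALF_helper84.md. Rules as in `Pool.Agent.helper84.HF.SpecH`, but `import Pool.Agent.helper80.HF.SpecG`. All rows of this file are independent of the rest of the project.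
`EN.XDS_stmt` (no short elements) is proved (`EN.A_XDS` in `Pool.Agent.helper62.EN.All`); it is a hypothesis here.
`aM t = diag(e^(t/2), e^(-t/2))`, `nM x = [[1, x], [0, 1]]`, `lM v = [[1, 0], [v, 1]]`. `(aM t)⁻¹ * h * aM t` has the entries `h00, e^(-t) h01, e^t h10, h11`. `lM v * aM t = aM t * lM (e^t v)`. `h⁻¹ = [[h11, -h01], [-h10, h00]]`.
-/

set_option autoImplicit false

open scoped MatrixGroups ContDiff Topology UpperHalfPlane ComplexConjugate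
open UpperHalfPlane MeasureTheory Filter Set

namespace Pool.Agent.HF

open Pool.Agent.RS
open Pool.Agent.MS (bq)

/-- `g` is in one of the forward boxes of size `b` and length `n` around the points of `A` -/
def fb (Γ : Subgroup SL(2, ℝ)) (b n : ℝ) (A : Finset SL(2, ℝ)) (g : SL(2, ℝ)) : Prop :=
  ∃ y ∈ A, ∃ γ : Γ, bq b b (b * Real.exp (-n)) (y⁻¹ * (γ : SL(2, ℝ)) * g)

/-- `g` is in one of the backward boxes of size `b` and length `n` around the points of `A` -/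
def sb (Γ : Subgroup SL(2, ℝ)) (b n : ℝ) (A : Finset SL(2, ℝ)) (g : SL(2, ℝ)) : Prop :=
  ∃ y ∈ A, ∃ γ : Γ, bq b (b * Real.exp (-n)) b (y⁻¹ * (γ : SL(2, ℝ)) * g)

/-- **Row GUB** (unstable segments and one forward box; short-medium; from XDS). Let `h = z⁻¹ γ g lM u`, `h' = z⁻¹ γ' g lM u'` be in the box. Then `z⁻¹ (γ' γ⁻¹) z = h' * lM (u - u') * h⁻¹`; if `b` and `|u - u'|` are `≤ ε/20` (and `≤ 1/100`) all entries of this product differ from those of `1` by less than `ε` (`(1+E')(1+T)(1+E'') - 1`, entries of `E'`, `E''` at most `b`, of `T` at most `|u - u'|`),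
so `γ' γ⁻¹ = 1` by XDS (conjugate of an element of `Γ`; `g = z`), `γ' = γ`. Then `h⁻¹ h' = lM (u' - u)`, with the lower left entry `h00 h'10 - h10 h'00`: `|u' - u| ≤ 2 b e^(-n) (1 + b) ≤ e^(-n)/2`. Divide `[0, 1]` into `C1 = ⌈1/c⌉₊ + 1` intervals `[i c, (i+1) c)` with `c = min (ε/20) (1/100)`; for each of them which contains such a `u`
choose one, `u_i`, and put `s_i = u_i - e^(-n)/2`. -/
def GUB_stmt : Prop := ∀ Γ : Subgroup SL(2, ℝ), QU.SurfaceGroup Γ → ∃ (a0 : ℝ) (C1 : ℕ), 0 < a0 ∧ a0 ≤ 1 / 100 ∧ ∀ (b n : ℝ) (z g : SL(2, ℝ)), 0 < b → b ≤ a0 → 0 ≤ n →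
  ∃ S : Finset ℝ, S.card ≤ C1 ∧ ∀ u : ℝ, 0 ≤ u → u ≤ 1 → (∃ γ : Γ, bq b b (b * Real.exp (-n)) (z⁻¹ * (γ : SL(2, ℝ)) * (g * lM u))) → ∃ s ∈ S, s ≤ u ∧ u ≤ s + Real.exp (-n)

/-- **Row GSB** (stable segments and one backward box; short-medium; from XDS; the same proof as GUB with `nM` in place of `lM`). `h = z⁻¹ γ g nM x`, `h' = z⁻¹ γ' g nM x'`: `z⁻¹ (γ' γ⁻¹) z = h' * nM (x - x') * h⁻¹`; `h⁻¹ h' = nM (x' - x)` has the upper right entry `h11 h'01 - h01 h'11`: `|x' - x| ≤ 2 b e^(-n) (1 + b) ≤ e^(-n)/2`. Divide `[-1, 1]` into intervals of length `c`. -/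
def GSB_stmt : Prop := ∀ Γ : Subgroup SL(2, ℝ), QU.SurfaceGroup Γ → ∃ (a0 : ℝ) (C1 : ℕ), 0 < a0 ∧ a0 ≤ 1 / 100 ∧ ∀ (b n : ℝ) (z g : SL(2, ℝ)), 0 < b → b ≤ a0 → 0 ≤ n →
  ∃ S : Finset ℝ, S.card ≤ C1 ∧ ∀ x : ℝ, -1 ≤ x → x ≤ 1 → (∃ γ : Γ, bq b (b * Real.exp (-n)) b (z⁻¹ * (γ : SL(2, ℝ)) * (g * nM x))) → ∃ s ∈ S, s ≤ x ∧ x ≤ s + Real.exp (-n)

/-- **Row GCN** (cells met by few short intervals; short; pure). `M s - 1 ≤ k ≤ M s + 3` for `k ∈ T`: `T ⊆ ⋃_(s ∈ S) Icc ⌈M s - 1⌉₊ ⌊M s + 3⌋₊` (`Finset.card_biUnion_le_card_mul`), each with at most `5` elements. -/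
def GCN_stmt : Prop := ∀ (S : Finset ℝ) (M : ℕ) (T : Finset ℕ), 0 < M →
  (∀ k ∈ T, ∃ v : ℝ, (k : ℝ) / M ≤ v ∧ v ≤ ((k : ℝ) + 1) / M ∧ ∃ s ∈ S, s ≤ v ∧ v ≤ s + 3 / M) → T.card ≤ 6 * S.card

open Classical in
/-- **Row GTM** (the bad digits; short-medium; pure). `L = log 2`, `1/L < 1.45`. For each `i` at most `2` of the `j` have `⌊j L⌋₊ = i` (`i ≤ j L < i + 1`, an interval of length `1/L < 2` for `j`): at most `2 |I| ≤ n/500` of the first kind. Second kind: `j L ≥ ⌊j L⌋₊ ≥ n - m + 1`, and `N L < n + L` (take logarithms in `2^N < 2 e^n`), so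
`(n - m + 1)/L ≤ j ≤ N < n/L + 1`: at most `N - (n - m + 1)/L + 1 < 2 + (m - 1)/L ≤ 2m + 1` of them. `n ≤ N L ≤ 0.7 N` (`log 2 < 0.7`), `m ≤ n/400`. So `128 · # ≤ 128 (n/500 + 3m) ≤ 128 · 0.7 N/500 + 384 · 0.7 N/400 ≤ 0.18 N + 0.68 N ≤ N`. -/
def GTM_stmt : Prop := ∀ (n m N : ℕ) (I : Finset ℕ), 1 ≤ m → 400 * m ≤ n → Real.exp n ≤ 2 ^ N → (2 : ℝ) ^ N < 2 * Real.exp n → 1000 * I.card ≤ n →
  128 * ((Finset.range (N + 1)).filter (fun j : ℕ => ⌊(j : ℝ) * Real.log 2⌋₊ ∈ I ∨ n < ⌊(j : ℝ) * Real.log 2⌋₊ + m)).card ≤ N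

/-- **Row GPR** (propagation along the flow; short; pure matrices, `SL(2, ℝ)` only). `y'⁻¹ (γ' γ) (g aM i) = q p`, `q = y'⁻¹ γ' (y aM i)`, `p = (aM i)⁻¹ (y⁻¹ γ g) aM i`: `|p00 - 1|, |p11 - 1| ≤ 16a`, `|p01| ≤ 16 a e^(-i) ≤ 16a`, `|p10| ≤ 16 a e^(i - n) ≤ 16 a e^(-m)`. So `|(q p)00 - 1| ≤ a (1 + 16a) + 16a + 16a² ≤ 20a`, the same for `(q p)11`;
`|(q p)01| ≤ (1 + a) 16a + a (1 + 16a) ≤ 20a`, `|(q p)10| ≤ a e^(-m) (1 + 16a) + (1 + a) 16a e^(-m) ≤ 20 a e^(-m)`. -/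
def GPR_stmt : Prop := ∀ (a : ℝ) (n m i : ℕ) (y y' γ γ' g : SL(2, ℝ)), 0 < a → a ≤ 1 / 100 → i + m ≤ n → bq (16 * a) (16 * a) (16 * a * Real.exp (-n)) (y⁻¹ * γ * g) →
  bq a a (a * Real.exp (-m)) (y'⁻¹ * γ' * (y * aM i)) → bq (20 * a) (20 * a) (20 * a * Real.exp (-m)) (y'⁻¹ * (γ' * γ) * (g * aM i))

/-- **Row GCL** (the number of cells; short; from GUB, GCN). For each `y ∈ A` the finite set `S_y` of GUB (`z = y`), `S = ⋃ S_y`, `|S| ≤ C1 |A|`; `e^(-n) < 2/2^N ≤ 3/2^N`; GCN with `M = 2^N`. `C = 6 C1`, the same `a0`. -/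
def GCL_stmt : Prop := ∀ Γ : Subgroup SL(2, ℝ), QU.SurfaceGroup Γ → ∃ (a0 : ℝ) (C : ℕ), 0 < a0 ∧ a0 ≤ 1 / 100 ∧ ∀ (b : ℝ) (n N : ℕ) (A : Finset SL(2, ℝ)) (g : SL(2, ℝ)) (T : Finset ℕ), 0 < b → b ≤ a0 → (2 : ℝ) ^ N < 2 * Real.exp n →
  (∀ u ∈ T, ∃ v : ℝ, 0 ≤ v ∧ v ≤ 1 ∧ (u : ℝ) / 2 ^ N ≤ v ∧ v ≤ ((u : ℝ) + 1) / 2 ^ N ∧ fb Γ b n A (g * lM v)) → T.card ≤ C * A.card

/-- **Row GPO** (porosity; medium; from GUB, GCN). `L = log 2`, `i = ⌊j L⌋₊`, `m2 = ⌊m/L⌋₊`, `v0 = p/2^j`. Let `u ∈ T`. As `px N j u = p`: `p 2^(N-j) ≤ u` and `u + 1 ≤ (p+1) 2^(N-j)`, so `v0 ≤ v u ≤ v0 + 2^(-j)`; `t = e^i (v u - v0) ∈ [0, 1]` (`i ≤ j L`, so `e^i ≤ 2^j`) and `g lM (v u) aM i = (g lM v0 aM i) lM t`. For `y ∈ Am` let `S_y` be the set of GUB for `z = y`,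
`g lM v0 aM i`, `b`, `n = m`, and `S = ⋃_y {v0 + e^(-i) s : s ∈ S_y}`, `|S| ≤ C1 |Am|`. So `v0 + e^(-i) s ≤ v u ≤ v0 + e^(-i) s + e^(-m-i)` for some `s`, and `e^(-i) ≤ e 2^(-j)` (`i + 1 > j L`), `e^(-m) ≤ 2^(-m2)`: `e^(-m-i) ≤ 3/2^(j+m2)`. With `k = px N (j+m2) u` also `k/2^(j+m2) ≤ v u ≤ (k+1)/2^(j+m2)` (as above).
GCN for `M = 2^(j+m2)` and the image: `C = 6 C1`. -/
def GPO_stmt : Prop := ∀ Γ : Subgroup SL(2, ℝ), QU.SurfaceGroup Γ → ∃ (a0 : ℝ) (C : ℕ), 0 < a0 ∧ a0 ≤ 1 / 100 ∧ ∀ (b : ℝ) (m N j p : ℕ) (Am : Finset SL(2, ℝ)) (g : SL(2, ℝ)) (T : Finset ℕ) (v : ℕ → ℝ), 0 < b → b ≤ a0 → j + ⌊(m : ℝ) / Real.log 2⌋₊ ≤ N →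
  (∀ u ∈ T, (u : ℝ) / 2 ^ N ≤ v u ∧ v u ≤ ((u : ℝ) + 1) / 2 ^ N ∧ px N j u = p ∧ fb Γ b m Am (g * lM (v u) * aM (⌊(j : ℝ) * Real.log 2⌋₊ : ℝ))) →
    (T.image (px N (j + ⌊(m : ℝ) / Real.log 2⌋₊))).card ≤ C * Am.card

open Classical in
/-- **Row GYC** (the leaf set in cells; medium; from GTM, GPR, GCL, GPO). `a0` = the minimum of the two `a0` divided by `20`, and `≤ 1/1000`; `C` of GCL, `C2` = `C` of GPO, `m1 ≥ 1` with `8 C2⁴ ≤ e^(m1/2)`. `Y` = the set of the `u < 2^N` for which there is `v_u ∈ [0, 1]`, `u/2^N ≤ v_u ≤ (u+1)/2^N`, with `fb Γ (16a) n A (g lM v_u)` (choose `v_u`, `y_u ∈ A`, `γ_u`).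
`G u j := fb Γ (20a) m Am (g lM v_u aM ⌊j L⌋₊)`. (1) `|Y| ≤ C |A|`: GCL. (2) Cells: `u = ⌊v 2^N⌋₊` if `v < 1`, `u = 2^N - 1` if `v = 1`. (3) If `¬ G u j`, `i = ⌊j L⌋₊`, and `i + m ≤ n` then `i < n` and `¬ fb Γ a m Am (y_u aM i)` (GPR): so `i ∈ I_u = {i < n | ¬ fb Γ a m Am (y_u aM i)}` or `n < i + m`: GTM.
(4) GPO with `T = {u ∈ Y | G u j, px N j u = p}`: the image has at most `C2 |Am| ≤ C2 e^(5m/8)` elements, and `C2⁴ e^(5m/2) ≤ e^(3m)/8 ≤ 2^(3 m2)` as `m2 > m/L - 1`. -/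
def GYC_stmt : Prop := ∀ Γ : Subgroup SL(2, ℝ), QU.SurfaceGroup Γ → ∃ (a0 : ℝ) (C m1 : ℕ), 0 < a0 ∧ a0 ≤ 1 / 1000 ∧ ∀ (a : ℝ) (n m N : ℕ) (A Am : Finset SL(2, ℝ)) (g : SL(2, ℝ)), 0 < a → a ≤ a0 → m1 ≤ m → 400 * m ≤ n →
  Real.exp n ≤ 2 ^ N → (2 : ℝ) ^ N < 2 * Real.exp n → (Am.card : ℝ) ≤ Real.exp (5 / 8 * m) →
  (∀ y ∈ A, 1000 * ((Finset.range n).filter (fun i : ℕ => ¬ fb Γ a m Am (y * aM (i : ℝ)))).card ≤ n) →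
    ∃ (Y : Finset ℕ) (G : ℕ → ℕ → Prop), (∀ u ∈ Y, u < 2 ^ N) ∧ Y.card ≤ C * A.card ∧
      (∀ v : ℝ, 0 ≤ v → v ≤ 1 → fb Γ (16 * a) n A (g * lM v) → ∃ u ∈ Y, (u : ℝ) / 2 ^ N ≤ v ∧ v ≤ ((u : ℝ) + 1) / 2 ^ N) ∧
      (∀ u ∈ Y, 128 * ((Finset.range (N + 1)).filter (fun j => ¬ G u j)).card ≤ N) ∧
      ∀ j p : ℕ, j + ⌊(m : ℝ) / Real.log 2⌋₊ ≤ N →
        ((Y.filter (fun u => G u j ∧ px N j u = p)).image (px N (j + ⌊(m : ℝ) / Real.log 2⌋₊))).card ^ 4 ≤ 2 ^ (3 * ⌊(m : ℝ) / Real.log 2⌋₊)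

end Pool.Agent.HF
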