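import Pool.Agent.helper80.HF.GUB

/-!
# Row `hf:GSB`: a stable segment meets one backward box in few short intervals
-/

set_option autoImplicit false

open scoped MatrixGroups ContDiff Topology UpperHalfPlane ComplexConjugate
open UpperHalfPlane MeasureTheory Filter Set

namespace Pool.Agent.HF

open Pool.Agent.RS
open Pool.Agent.MS (bq)

lemma GSB_bq (b n : ℝ) (hb : 0 < b) (hn : 0 ≤ n) (h : SL(2, ℝ)) (hh : bq b (b * Real.exp (-n)) b h) : GUB_nb b h := by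
  obtain ⟨a1, a2, a3, a4⟩ := hh
  refine ⟨a1, a2, a3.trans ?_, a4⟩
  have : Real.exp (-n) ≤ 1 := Real.exp_le_one_iff.mpr (by linarith)
  nlinarith

theorem GSB_proof (h : EN.XDS_stmt) : GSB_stmt := by
  intro Γ hΓ
  obtain ⟨ε, hε, hX⟩ := h Γ hΓ
  set c := min (ε / 20) (1 / 100) with hc
  have hc0 : 0 < c := lt_min (by positivity) (by norm_num)
  refine ⟨c, ⌈(2 : ℝ) / c⌉₊ + 1, hc0, min_le_right _ _, ?_⟩
  intro b n z g hb hbc hn
  have hb1 : b ≤ ε / 20 := hbc.trans (min_le_left _ _)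
  have hb2 : b ≤ 1 / 100 := hbc.trans (min_le_right _ _)
  have hkey : ∀ u u', (-1 ≤ u ∧ u ≤ 1 ∧ ∃ γ : Γ, bq b (b * Real.exp (-n)) b (z⁻¹ * (γ : SL(2, ℝ)) * (g * nM u))) →
      (-1 ≤ u' ∧ u' ≤ 1 ∧ ∃ γ : Γ, bq b (b * Real.exp (-n)) b (z⁻¹ * (γ : SL(2, ℝ)) * (g * nM u'))) → |u - u'| ≤ c → |u - u'| ≤ Real.exp (-n) / 2 := by
    rintro u u' ⟨-, -, γ, hγ⟩ ⟨-, -, γ', hγ'⟩ huu
    have n1 := GSB_bq b n hb hn _ hγ
    have n2 := GSB_bq b n hb hn _ hγ'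
    have n3 : GUB_nb (min (ε / 20) (1 / 100)) (nM (u - u')) := by
      obtain ⟨a1, a2, a3, a4⟩ := GUB_nM (u - u')
      refine ⟨?_, ?_, ?_, ?_⟩
      · rw [a1, sub_self, abs_zero]; exact hc0.le
      · rw [a4, sub_self, abs_zero]; exact hc0.le
      · rw [a2]; exact huu
      · rw [a3, abs_zero]; exact hc0.le
    have key := GUB_near ε b _ _ _ hε hb1 hb2 n1 n2 n3
    have e1 : z⁻¹ * (γ' : SL(2, ℝ)) * (g * nM u') * nM (u - u') * (z⁻¹ * (γ : SL(2, ℝ)) * (g * nM u))⁻¹ = z⁻¹ * ((γ' * γ⁻¹ : Γ) : SL(2, ℝ)) * z := by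
      have e2 : nM u' * nM (u - u') = nM u := by rw [GUB_nM_add]; congr 1; ring
      have e3 : z⁻¹ * (γ' : SL(2, ℝ)) * (g * nM u') * nM (u - u') = z⁻¹ * (γ' : SL(2, ℝ)) * (g * nM u) := by
        rw [← e2]; group
      rw [e3]
      push_cast
      group
    rw [e1] at key
    have hg : γ' = γ := by
      have := hX z (γ' * γ⁻¹) key
      exact mul_inv_eq_one.mp this
    rw [hg] at hγ'
    set h1 := z⁻¹ * (γ : SL(2, ℝ)) * (g * nM u) with hh1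
    set h2 := z⁻¹ * (γ : SL(2, ℝ)) * (g * nM u') with hh2
    have e4 : h1⁻¹ * h2 = nM (u' - u) := by
      have e5 : nM u * nM (u' - u) = nM u' := by rw [GUB_nM_add]; congr 1; ring
      rw [hh1, hh2, ← e5]
      group
    have e6 : (h1⁻¹ * h2).1 0 1 = u' - u := by rw [e4]; rfl
    rw [GUB_mul, (GUB_inv h1).1, (GUB_inv h1).2.1] at e6
    obtain ⟨p1, p2, p3, p4⟩ := hγ
    obtain ⟨q1, q2, q3, q4⟩ := hγ'
    have hE : 0 < Real.exp (-n) := Real.exp_pos _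
    have r1 : |h1.1 1 1| ≤ 2 := by
      rw [abs_le] at p2 ⊢
      constructor <;> linarith [p2.1, p2.2]
    have r2 : |h2.1 1 1| ≤ 2 := by
      rw [abs_le] at q2 ⊢
      constructor <;> linarith [q2.1, q2.2]
    have s1 : |h1.1 0 1 * h2.1 1 1| ≤ b * Real.exp (-n) * 2 := by
      rw [abs_mul]
      exact mul_le_mul p3 r2 (abs_nonneg _) (by positivity)
    have s2 : |h1.1 1 1 * h2.1 0 1| ≤ 2 * (b * Real.exp (-n)) := by
      rw [abs_mul]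
      exact mul_le_mul r1 q3 (abs_nonneg _) (by positivity)
    have s3 : b * Real.exp (-n) ≤ 1 / 100 * Real.exp (-n) := mul_le_mul_of_nonneg_right hb2 hE.le
    have e7 : u - u' = h1.1 0 1 * h2.1 1 1 - h1.1 1 1 * h2.1 0 1 := by linarith
    rw [e7]
    calc |h1.1 0 1 * h2.1 1 1 - h1.1 1 1 * h2.1 0 1| ≤ |h1.1 0 1 * h2.1 1 1| + |h1.1 1 1 * h2.1 0 1| := abs_sub _ _
      _ ≤ Real.exp (-n) / 2 := by linarith
  obtain ⟨S, hS, hS2⟩ := GUB_cover (fun u => -1 ≤ u ∧ u ≤ 1 ∧ ∃ γ : Γ, bq b (b * Real.exp (-n)) b (z⁻¹ * (γ : SL(2, ℝ)) * (g * nM u))) (-1) 2 c (Real.exp (-n)) hc0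
    (fun u hu => ⟨hu.1, by linarith [hu.2.1]⟩) hkey
  exact ⟨S, hS, fun u h0 h1 h2 => hS2 u ⟨h0, h1, h2⟩⟩

end Pool.Agent.HF
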