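import Pool.Agent.helper80.HF.SpecG

/-!
# Row `hf:GYC`: the leaf set in cells
-/

set_option autoImplicit false

open scoped MatrixGroups ContDiff Topology UpperHalfPlane ComplexConjugate
open UpperHalfPlane MeasureTheory Filter Set

namespace Pool.Agent.HF

open Pool.Agent.RS
open Pool.Agent.MS (bq)

lemma GYC_pow (c C2 k m m2 : ℕ) (hm2 : m2 = ⌊(m : ℝ) / Real.log 2⌋₊) (hc : c ≤ C2 * k) (hk : (k : ℝ) ≤ Real.exp (5 / 8 * m))
    (h8 : 8 * (C2 : ℝ) ^ 4 ≤ Real.exp (m / 2)) : c ^ 4 ≤ 2 ^ (3 * m2) := by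
  have hL : 0 < Real.log 2 := Real.log_pos (by norm_num)
  have h1 : (m : ℝ) / Real.log 2 < m2 + 1 := by
    rw [hm2]; exact Nat.lt_floor_add_one _
  have h2 : (m : ℝ) < (m2 + 1) * Real.log 2 := by
    rw [div_lt_iff₀ hL] at h1
    exact h1
  have e2 : Real.exp (3 * (m : ℝ)) ≤ 8 * (2 : ℝ) ^ (3 * m2) := by
    have e3 : (8 : ℝ) * 2 ^ (3 * m2) = Real.exp ((3 * m2 + 3 : ℕ) * Real.log 2) := by
      rw [Real.exp_nat_mul, Real.exp_log (by norm_num), pow_add]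
      norm_num
      ring
    rw [e3]
    apply Real.exp_le_exp.mpr
    push_cast
    nlinarith
  have e4 : ((c : ℝ)) ^ 4 ≤ (C2 : ℝ) ^ 4 * Real.exp (5 / 2 * m) := by
    have a1 : (c : ℝ) ≤ C2 * Real.exp (5 / 8 * m) := by
      have : (c : ℝ) ≤ C2 * k := by exact_mod_cast hc
      exact this.trans (mul_le_mul_of_nonneg_left hk (by positivity))
    calc (c : ℝ) ^ 4 ≤ (C2 * Real.exp (5 / 8 * m)) ^ 4 := pow_le_pow_left₀ (by positivity) a1 4
      _ = (C2 : ℝ) ^ 4 * Real.exp (5 / 2 * m) := by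
        rw [mul_pow, ← Real.exp_nat_mul]
        congr 2
        push_cast
        ring
  have e5 : 8 * (c : ℝ) ^ 4 ≤ 8 * (2 : ℝ) ^ (3 * m2) := by
    calc 8 * (c : ℝ) ^ 4 ≤ 8 * ((C2 : ℝ) ^ 4 * Real.exp (5 / 2 * m)) := mul_le_mul_of_nonneg_left e4 (by norm_num)
      _ = (8 * (C2 : ℝ) ^ 4) * Real.exp (5 / 2 * m) := by ring
      _ ≤ Real.exp (m / 2) * Real.exp (5 / 2 * m) := mul_le_mul_of_nonneg_right h8 (Real.exp_pos _).le
      _ = Real.exp (3 * m) := by rw [← Real.exp_add]; congr 1; ring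
      _ ≤ _ := e2
  have e6 : (c : ℝ) ^ 4 ≤ (2 : ℝ) ^ (3 * m2) := by linarith
  exact_mod_cast e6

theorem GYC_proof (h1 : GTM_stmt) (h2 : GPR_stmt) (h3 : GCL_stmt) (h4 : GPO_stmt) : GYC_stmt := by
  classical
  intro Γ hΓ
  obtain ⟨a1, C, ha1, ha1', hC⟩ := h3 Γ hΓ
  obtain ⟨a2, C2, ha2, ha2', hP⟩ := h4 Γ hΓ
  refine ⟨min (min a1 a2 / 20) (1 / 1000), C, 16 * C2 ^ 4 + 1, lt_min (div_pos (lt_min ha1 ha2) (by norm_num)) (by norm_num), min_le_right _ _, ?_⟩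
  intro a n m N A Am g ha haa hm hn hN1 hN2 hAm hA
  have ha20 : 20 * a ≤ min a1 a2 := by
    have := haa.trans (min_le_left _ _)
    rw [le_div_iff₀ (by norm_num)] at this
    linarith
  have ha1000 : a ≤ 1 / 1000 := haa.trans (min_le_right _ _)
  have hm1 : 1 ≤ m := by omega
  have h8 : 8 * (C2 : ℝ) ^ 4 ≤ Real.exp ((m : ℝ) / 2) := by
    have : ((16 * C2 ^ 4 + 1 : ℕ) : ℝ) ≤ m := by exact_mod_cast hm
    push_cast at this
    have e := Real.add_one_le_exp ((m : ℝ) / 2)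
    linarith
  let Q : ℕ → ℝ → Prop := fun u v => 0 ≤ v ∧ v ≤ 1 ∧ (u : ℝ) / 2 ^ N ≤ v ∧ v ≤ ((u : ℝ) + 1) / 2 ^ N ∧ fb Γ (16 * a) n A (g * lM v)
  let v : ℕ → ℝ := fun u => if h : ∃ w, Q u w then h.choose else 0
  have hv : ∀ u, (∃ w, Q u w) → Q u (v u) := by
    intro u hu
    have : v u = hu.choose := dif_pos hu
    rw [this]
    exact hu.choose_spec
  let Y : Finset ℕ := (Finset.range (2 ^ N)).filter (fun u => ∃ w, Q u w)
  have hY : ∀ u ∈ Y, u < 2 ^ N ∧ Q u (v u) := by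
    intro u hu
    rw [Finset.mem_filter, Finset.mem_range] at hu
    exact ⟨hu.1, hv u hu.2⟩
  have hpow : (0 : ℝ) < 2 ^ N := by positivity
  refine ⟨Y, fun u j => fb Γ (20 * a) m Am (g * lM (v u) * aM (⌊(j : ℝ) * Real.log 2⌋₊ : ℝ)), fun u hu => (hY u hu).1, ?_, ?_, ?_, ?_⟩
  · refine hC (16 * a) n N A g Y (by positivity) ?_ hN2 ?_
    · have := min_le_left a1 a2
      linarith
    · intro u hu
      obtain ⟨-, q1, q2, q3, q4, q5⟩ := hY u hu
      exact ⟨v u, q1, q2, q3, q4, q5⟩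
  · intro w hw0 hw1 hw
    by_cases hlt : w < 1
    · refine ⟨⌊w * 2 ^ N⌋₊, ?_, ?_, ?_⟩
      · have hwn : 0 ≤ w * 2 ^ N := by positivity
        have f1 := Nat.floor_le hwn
        have f2 := Nat.lt_floor_add_one (w * 2 ^ N)
        rw [Finset.mem_filter, Finset.mem_range]
        refine ⟨?_, w, hw0, hw1, ?_, ?_, hw⟩
        · rw [Nat.floor_lt hwn]
          push_cast
          nlinarith
        · rw [div_le_iff₀ hpow]; exact f1
        · rw [le_div_iff₀ hpow]; exact f2.le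
      · rw [div_le_iff₀ hpow]
        exact Nat.floor_le (by positivity)
      · rw [le_div_iff₀ hpow]
        exact (Nat.lt_floor_add_one (w * 2 ^ N)).le
    · have hw' : w = 1 := le_antisymm hw1 (not_lt.mp hlt)
      have hc : ((2 ^ N - 1 : ℕ) : ℝ) = 2 ^ N - 1 := by
        rw [Nat.cast_sub (Nat.one_le_two_pow)]
        push_cast
        ring
      have g1 : ((2 ^ N - 1 : ℕ) : ℝ) / 2 ^ N ≤ w := by
        rw [hc, hw', div_le_one hpow]; linarith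
      have g2 : w ≤ (((2 ^ N - 1 : ℕ) : ℝ) + 1) / 2 ^ N := by
        rw [hc, hw', le_div_iff₀ hpow]; linarith
      refine ⟨2 ^ N - 1, ?_, g1, g2⟩
      rw [Finset.mem_filter, Finset.mem_range]
      have : 0 < 2 ^ N := by positivity
      exact ⟨by omega, w, hw0, hw1, g1, g2, hw⟩
  · intro u hu
    obtain ⟨-, q1, q2, q3, q4, y, hy, γ, hγ⟩ := hY u hu
    have hI := hA y hy
    have hT := h1 n m N ((Finset.range n).filter (fun i : ℕ => ¬ fb Γ a m Am (y * aM (i : ℝ)))) hm1 hn hN1 hN2 hI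
    refine le_trans (Nat.mul_le_mul_left 128 (Finset.card_le_card ?_)) hT
    intro j hj
    rw [Finset.mem_filter] at hj ⊢
    refine ⟨hj.1, ?_⟩
    by_contra hcon
    rw [not_or] at hcon
    obtain ⟨c1, c2⟩ := hcon
    apply hj.2
    have c3 : ⌊(j : ℝ) * Real.log 2⌋₊ + m ≤ n := not_lt.mp c2
    have c4 : fb Γ a m Am (y * aM ((⌊(j : ℝ) * Real.log 2⌋₊ : ℕ) : ℝ)) := by
      by_contra hne
      apply c1
      rw [Finset.mem_filter, Finset.mem_range]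
      exact ⟨by omega, hne⟩
    obtain ⟨y', hy', γ', hγ'⟩ := c4
    have := h2 a n m ⌊(j : ℝ) * Real.log 2⌋₊ y y' γ γ' (g * lM (v u)) ha (by linarith) c3 hγ hγ'
    refine ⟨y', hy', γ' * γ, ?_⟩
    have e : ((γ' * γ : Γ) : SL(2, ℝ)) = (γ' : SL(2, ℝ)) * (γ : SL(2, ℝ)) := rfl
    rw [e]
    exact this
  · intro j p hj
    refine GYC_pow _ C2 Am.card m ⌊(m : ℝ) / Real.log 2⌋₊ rfl ?_ hAm h8
    refine hP (20 * a) m N j p Am g _ v (by positivity) (ha20.trans (min_le_right _ _)) hj ?_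
    intro u hu
    rw [Finset.mem_filter] at hu
    obtain ⟨hu1, hu2, hu3⟩ := hu
    obtain ⟨-, q1, q2, q3, q4, q5⟩ := hY u hu1
    exact ⟨q3, q4, hu3, hu2⟩

end Pool.Agent.HF
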