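import Pool.Agent.helper62.EN.All
import Pool.Agent.helper80.HF.GSB
import Pool.Agent.helper80.HF.GYC
import Pool.Agent.helper10.HF.GCN
import Pool.Agent.helper23.HF.GTM
import Pool.Agent.helper23.HF.GPR
import Pool.Agent.helper24.HF.GPO
import Pool.Agent.helper29.HF.GCL

/-!
# Project HALF, block G: assembly
-/

set_option autoImplicit false

namespace Pool.Agent.HF

theorem A_GUB : GUB_stmt := GUB_proof EN.A_XDS

theorem A_GSB : GSB_stmt := GSB_proof EN.A_XDS

theorem A_GYC : GYC_stmt := GYC_proof GTM_proof GPR_proof (GCL_proof A_GUB GCN_proof) (GPO_proof A_GUB GCN_proof)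

end Pool.Agent.HF
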