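import Pool.Agent.helper80.HF.SpecG

/-!
# Row `hf:GUB`: an unstable segment meets one forward box in few short intervals
-/

set_option autoImplicit false

open scoped MatrixGroups ContDiff Topology UpperHalfPlane ComplexConjugate
open UpperHalfPlane MeasureTheory Filter Set

namespace Pool.Agent.HF

open Pool.Agent.RS
open Pool.Agent.MS (bq)

lemma GUB_mul (h k : SL(2, ℝ)) (i j : Fin 2) : (h * k).1 i j = h.1 i 0 * k.1 0 j + h.1 i 1 * k.1 1 j := by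
  show (h.1 * k.1) i j = _
  rw [Matrix.mul_apply, Fin.sum_univ_two]

lemma GUB_inv (h : SL(2, ℝ)) : h⁻¹.1 0 0 = h.1 1 1 ∧ h⁻¹.1 0 1 = -h.1 0 1 ∧ h⁻¹.1 1 0 = -h.1 1 0 ∧ h⁻¹.1 1 1 = h.1 0 0 := by
  have e : h⁻¹.1 = !![h.1 1 1, -h.1 0 1; -h.1 1 0, h.1 0 0] := by
    show Matrix.adjugate h.1 = _
    exact Matrix.adjugate_fin_two h.1
  rw [e]
  exact ⟨rfl, rfl, rfl, rfl⟩

lemma GUB_lM (u : ℝ) : (lM u).1 0 0 = 1 ∧ (lM u).1 0 1 = 0 ∧ (lM u).1 1 0 = u ∧ (lM u).1 1 1 = 1 := ⟨rfl, rfl, rfl, rfl⟩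

lemma GUB_nM (u : ℝ) : (nM u).1 0 0 = 1 ∧ (nM u).1 0 1 = u ∧ (nM u).1 1 0 = 0 ∧ (nM u).1 1 1 = 1 := ⟨rfl, rfl, rfl, rfl⟩

lemma GUB_ext (h k : SL(2, ℝ)) (h00 : h.1 0 0 = k.1 0 0) (h01 : h.1 0 1 = k.1 0 1) (h10 : h.1 1 0 = k.1 1 0) (h11 : h.1 1 1 = k.1 1 1) : h = k := by
  apply Subtype.ext
  ext i j
  fin_cases i <;> fin_cases j
  · exact h00
  · exact h01
  · exact h10
  · exact h11

lemma GUB_lM_add (u v : ℝ) : lM u * lM v = lM (u + v) := by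
  obtain ⟨a1, a2, a3, a4⟩ := GUB_lM u
  obtain ⟨b1, b2, b3, b4⟩ := GUB_lM v
  obtain ⟨c1, c2, c3, c4⟩ := GUB_lM (u + v)
  apply GUB_ext <;> rw [GUB_mul] <;> simp only [a1, a2, a3, a4, b1, b2, b3, b4, c1, c2, c3, c4] <;> ring

lemma GUB_nM_add (u v : ℝ) : nM u * nM v = nM (u + v) := by
  obtain ⟨a1, a2, a3, a4⟩ := GUB_nM u
  obtain ⟨b1, b2, b3, b4⟩ := GUB_nM v
  obtain ⟨c1, c2, c3, c4⟩ := GUB_nM (u + v)
  apply GUB_ext <;> rw [GUB_mul] <;> simp only [a1, a2, a3, a4, b1, b2, b3, b4, c1, c2, c3, c4] <;> ring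

lemma GUB_lM_zero : lM 0 = 1 := by
  apply GUB_ext <;> simp [lM]

lemma GUB_nM_zero : nM 0 = 1 := by
  apply GUB_ext <;> simp [nM]

lemma GUB_sm2 (x y d : ℝ) (hx : |x| ≤ d) (hy : |y| ≤ 1 / 100) : |x * y| ≤ d / 100 := by
  rw [abs_mul]
  have hd : 0 ≤ d := (abs_nonneg x).trans hx
  calc |x| * |y| ≤ d * (1 / 100) := mul_le_mul hx hy (abs_nonneg _) hd
    _ = d / 100 := by ring

/-- entries near those of the identity -/
def GUB_nb (b : ℝ) (h : SL(2, ℝ)) : Prop := |h.1 0 0 - 1| ≤ b ∧ |h.1 1 1 - 1| ≤ b ∧ |h.1 0 1| ≤ b ∧ |h.1 1 0| ≤ b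

lemma GUB_near (ε b : ℝ) (h h' t : SL(2, ℝ)) (hε : 0 < ε) (hb : b ≤ ε / 20) (hb1 : b ≤ 1 / 100) (h1 : GUB_nb b h) (h2 : GUB_nb b h') (h3 : GUB_nb (min (ε / 20) (1 / 100)) t) :
    EN.nr ε (h' * t * h⁻¹) := by
  obtain ⟨i1, i2, i3, i4⟩ := GUB_inv h
  obtain ⟨a1, a2, a3, a4⟩ := h1
  obtain ⟨b1, b2, b3, b4⟩ := h2
  obtain ⟨c1, c2, c3, c4⟩ := h3
  set p := h.1 0 0 - 1 with hp
  set q := h.1 0 1 with hq
  set r := h.1 1 0 with hr
  set s := h.1 1 1 - 1 with hs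
  set p' := h'.1 0 0 - 1 with hp'
  set q' := h'.1 0 1 with hq'
  set r' := h'.1 1 0 with hr'
  set s' := h'.1 1 1 - 1 with hs'
  set P := t.1 0 0 - 1 with hP
  set Q := t.1 0 1 with hQ
  set R := t.1 1 0 with hR
  set T := t.1 1 1 - 1 with hT
  have k1 : h.1 0 0 = 1 + p := by rw [hp]; ring
  have k2 : h.1 1 1 = 1 + s := by rw [hs]; ring
  have k3 : h'.1 0 0 = 1 + p' := by rw [hp']; ring
  have k4 : h'.1 1 1 = 1 + s' := by rw [hs']; ring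
  have k5 : t.1 0 0 = 1 + P := by rw [hP]; ring
  have k6 : t.1 1 1 = 1 + T := by rw [hT]; ring
  set d := ε / 20 with hd
  have m1 : min d (1 / 100) ≤ d := min_le_left _ _
  have m2 : min d (1 / 100) ≤ 1 / 100 := min_le_right _ _
  have A1 : |p| ≤ d := a1.trans hb
  have A2 : |s| ≤ d := a2.trans hb
  have A3 : |q| ≤ d := a3.trans hb
  have A4 : |r| ≤ d := a4.trans hb
  have B1 : |p'| ≤ d := b1.trans hb
  have B2 : |s'| ≤ d := b2.trans hb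
  have B3 : |q'| ≤ d := b3.trans hb
  have B4 : |r'| ≤ d := b4.trans hb
  have C1 : |P| ≤ d := c1.trans m1
  have C2 : |T| ≤ d := c2.trans m1
  have C3 : |Q| ≤ d := c3.trans m1
  have C4 : |R| ≤ d := c4.trans m1
  have a1' := a1.trans hb1
  have a2' := a2.trans hb1
  have a3' := a3.trans hb1
  have a4' := a4.trans hb1
  have c1' := c1.trans m2
  have c2' := c2.trans m2
  have c3' := c3.trans m2
  have c4' := c4.trans m2
  have hd0 : 0 < d := by rw [hd]; positivity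
  have hde : ε = 20 * d := by rw [hd]; ring
  -- the first product: `h' t`
  have two : ∀ x y x' y' z w : ℝ, |x| ≤ d → |y| ≤ d → |x'| ≤ 1 / 100 → |y'| ≤ 1 / 100 → |z| ≤ d → |w| ≤ d → |x * x' + y * y' + z + w| ≤ 3 * d := by
    intro x y x' y' z w g1 g2 g3 g4 g5 g6
    have e1 := GUB_sm2 x x' d g1 g3
    have e2 := GUB_sm2 y y' d g2 g4
    rw [abs_le] at *
    constructor <;> linarith [e1.1, e1.2, e2.1, e2.2, g5.1, g5.2, g6.1, g6.2]
  -- entries of `h' t`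
  have E00 : |(h' * t).1 0 0 - 1| ≤ 3 * d := by
    rw [GUB_mul, k3, k5]
    have := two p' q' P R p' P B1 B3 c1' c4' B1 C1
    have e : (1 + p') * (1 + P) + q' * R - 1 = p' * P + q' * R + p' + P := by ring
    rw [e]; exact this
  have E01 : |(h' * t).1 0 1| ≤ 3 * d := by
    rw [GUB_mul, k3, k6]
    have := two p' q' Q T Q q' B1 B3 c3' c2' C3 B3
    have e : (1 + p') * Q + q' * (1 + T) = p' * Q + q' * T + Q + q' := by ring
    rw [e]; exact this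
  have E10 : |(h' * t).1 1 0| ≤ 3 * d := by
    rw [GUB_mul, k4, k5]
    have := two r' s' P R r' R B4 B2 c1' c4' B4 C4
    have e : r' * (1 + P) + (1 + s') * R = r' * P + s' * R + r' + R := by ring
    rw [e]; exact this
  have E11 : |(h' * t).1 1 1 - 1| ≤ 3 * d := by
    rw [GUB_mul, k4, k6]
    have := two r' s' Q T s' T B4 B2 c3' c2' B2 C2
    have e : r' * Q + (1 + s') * (1 + T) - 1 = r' * Q + s' * T + s' + T := by ring
    rw [e]; exact this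
  set x0 := (h' * t).1 0 0 - 1 with hx0
  set x1 := (h' * t).1 0 1 with hx1
  set x2 := (h' * t).1 1 0 with hx2
  set x3 := (h' * t).1 1 1 - 1 with hx3
  have l0 : (h' * t).1 0 0 = 1 + x0 := by rw [hx0]; ring
  have l3 : (h' * t).1 1 1 = 1 + x3 := by rw [hx3]; ring
  have thr : ∀ x y x' y' z w : ℝ, |x| ≤ 3 * d → |y| ≤ 3 * d → |x'| ≤ 1 / 100 → |y'| ≤ 1 / 100 → |z| ≤ 3 * d → |w| ≤ d → |x * x' + y * y' + z + w| < 20 * d := by
    intro x y x' y' z w g1 g2 g3 g4 g5 g6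
    have e1 := GUB_sm2 x x' (3 * d) g1 g3
    have e2 := GUB_sm2 y y' (3 * d) g2 g4
    rw [abs_le] at *
    rw [abs_lt]
    constructor <;> linarith [e1.1, e1.2, e2.1, e2.2, g5.1, g5.2, g6.1, g6.2]
  have nq : |(-q)| ≤ d := by rw [abs_neg]; exact A3
  have nr' : |(-r)| ≤ d := by rw [abs_neg]; exact A4
  have nq' : |(-q)| ≤ 1 / 100 := by rw [abs_neg]; exact a3'
  have nr'' : |(-r)| ≤ 1 / 100 := by rw [abs_neg]; exact a4'
  intro i j
  rw [hde]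
  fin_cases i <;> fin_cases j
  · show |(h' * t * h⁻¹).1 0 0 - 1| < 20 * d
    rw [GUB_mul, i1, i3, l0, k2]
    have := thr x0 x1 s (-r) x0 s E00 E01 a2' nr'' E00 A2
    have e : (1 + x0) * (1 + s) + x1 * -r - 1 = x0 * s + x1 * -r + x0 + s := by ring
    rw [e]; exact this
  · show |(h' * t * h⁻¹).1 0 1 - 0| < 20 * d
    rw [sub_zero, GUB_mul, i2, i4, l0, k1]
    have := thr x0 x1 (-q) p x1 (-q) E00 E01 nq' a1' E01 nq
    have e : (1 + x0) * -q + x1 * (1 + p) = x0 * -q + x1 * p + x1 + -q := by ring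
    rw [e]; exact this
  · show |(h' * t * h⁻¹).1 1 0 - 0| < 20 * d
    rw [sub_zero, GUB_mul, i1, i3, l3, k2]
    have := thr x2 x3 s (-r) x2 (-r) E10 E11 a2' nr'' E10 nr'
    have e : x2 * (1 + s) + (1 + x3) * -r = x2 * s + x3 * -r + x2 + -r := by ring
    rw [e]; exact this
  · show |(h' * t * h⁻¹).1 1 1 - 1| < 20 * d
    rw [GUB_mul, i2, i4, l3, k1]
    have := thr x2 x3 (-q) p x3 p E10 E11 nq' a1' E11 A1
    have e : x2 * -q + (1 + x3) * (1 + p) - 1 = x2 * -q + x3 * p + x3 + p := by ring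
    rw [e]; exact this

lemma GUB_cover (P : ℝ → Prop) (A l c δ : ℝ) (hc : 0 < c) (hP : ∀ u, P u → A ≤ u ∧ u ≤ A + l)
    (h2 : ∀ u u', P u → P u' → |u - u'| ≤ c → |u - u'| ≤ δ / 2) :
    ∃ S : Finset ℝ, S.card ≤ ⌈l / c⌉₊ + 1 ∧ ∀ u, P u → ∃ s ∈ S, s ≤ u ∧ u ≤ s + δ := by
  classical
  let f : ℕ → ℝ := fun k => if h : ∃ u, P u ∧ ⌊(u - A) / c⌋₊ = k then h.choose - δ / 2 else 0
  refine ⟨(Finset.range (⌈l / c⌉₊ + 1)).image f, Finset.card_image_le.trans (by rw [Finset.card_range]), ?_⟩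
  intro u hu
  have hex : ∃ w, P w ∧ ⌊(w - A) / c⌋₊ = ⌊(u - A) / c⌋₊ := ⟨u, hu, rfl⟩
  have hf : f ⌊(u - A) / c⌋₊ = hex.choose - δ / 2 := dif_pos hex
  obtain ⟨hw1, hw2⟩ := hex.choose_spec
  set w := hex.choose with hw
  have hk : ⌊(u - A) / c⌋₊ ≤ ⌈l / c⌉₊ := by
    have e1 : (u - A) / c ≤ l / c := by
      apply div_le_div_of_nonneg_right _ hc.le
      linarith [(hP u hu).2]
    exact (Nat.floor_le_floor e1).trans (Nat.floor_le_ceil _)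
  refine ⟨f ⌊(u - A) / c⌋₊, Finset.mem_image_of_mem f (Finset.mem_range.mpr (by omega)), ?_⟩
  rw [hf]
  have hu0 : 0 ≤ (u - A) / c := div_nonneg (by linarith [(hP u hu).1]) hc.le
  have hw0 : 0 ≤ (w - A) / c := div_nonneg (by linarith [(hP w hw1).1]) hc.le
  have f1 := Nat.floor_le hu0
  have f2 := Nat.lt_floor_add_one ((u - A) / c)
  have f3 := Nat.floor_le hw0
  have f4 := Nat.lt_floor_add_one ((w - A) / c)
  rw [hw2] at f3 f4
  have e1 : (u - A) / c - (w - A) / c < 1 := by linarith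
  have e2 : -1 < (u - A) / c - (w - A) / c := by linarith
  have e3 : (u - A) / c - (w - A) / c = (u - w) / c := by ring
  rw [e3] at e1 e2
  have g1 : u - w < c := by
    rw [div_lt_one hc] at e1
    exact e1
  have g2 : -c < u - w := by
    rw [lt_div_iff₀ hc] at e2
    linarith
  have hd := h2 u w hu hw1 (abs_le.mpr ⟨g2.le, g1.le⟩)
  rw [abs_le] at hd
  constructor <;> linarith [hd.1, hd.2]

lemma GUB_bq (b n : ℝ) (hb : 0 < b) (hn : 0 ≤ n) (h : SL(2, ℝ)) (hh : bq b b (b * Real.exp (-n)) h) : GUB_nb b h := by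
  obtain ⟨a1, a2, a3, a4⟩ := hh
  refine ⟨a1, a2, a3, a4.trans ?_⟩
  have : Real.exp (-n) ≤ 1 := Real.exp_le_one_iff.mpr (by linarith)
  nlinarith

theorem GUB_proof (h : EN.XDS_stmt) : GUB_stmt := by
  intro Γ hΓ
  obtain ⟨ε, hε, hX⟩ := h Γ hΓ
  set c := min (ε / 20) (1 / 100) with hc
  have hc0 : 0 < c := lt_min (by positivity) (by norm_num)
  refine ⟨c, ⌈(1 : ℝ) / c⌉₊ + 1, hc0, min_le_right _ _, ?_⟩
  intro b n z g hb hbc hn
  have hb1 : b ≤ ε / 20 := hbc.trans (min_le_left _ _)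
  have hb2 : b ≤ 1 / 100 := hbc.trans (min_le_right _ _)
  have hkey : ∀ u u', (0 ≤ u ∧ u ≤ 1 ∧ ∃ γ : Γ, bq b b (b * Real.exp (-n)) (z⁻¹ * (γ : SL(2, ℝ)) * (g * lM u))) →
      (0 ≤ u' ∧ u' ≤ 1 ∧ ∃ γ : Γ, bq b b (b * Real.exp (-n)) (z⁻¹ * (γ : SL(2, ℝ)) * (g * lM u'))) → |u - u'| ≤ c → |u - u'| ≤ Real.exp (-n) / 2 := by
    rintro u u' ⟨-, -, γ, hγ⟩ ⟨-, -, γ', hγ'⟩ huu
    have n1 := GUB_bq b n hb hn _ hγ
    have n2 := GUB_bq b n hb hn _ hγ'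
    have n3 : GUB_nb (min (ε / 20) (1 / 100)) (lM (u - u')) := by
      obtain ⟨a1, a2, a3, a4⟩ := GUB_lM (u - u')
      refine ⟨?_, ?_, ?_, ?_⟩
      · rw [a1, sub_self, abs_zero]; exact hc0.le
      · rw [a4, sub_self, abs_zero]; exact hc0.le
      · rw [a2, abs_zero]; exact hc0.le
      · rw [a3]; exact huu
    have key := GUB_near ε b _ _ _ hε hb1 hb2 n1 n2 n3
    have e1 : z⁻¹ * (γ' : SL(2, ℝ)) * (g * lM u') * lM (u - u') * (z⁻¹ * (γ : SL(2, ℝ)) * (g * lM u))⁻¹ = z⁻¹ * ((γ' * γ⁻¹ : Γ) : SL(2, ℝ)) * z := by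
      have e2 : lM u' * lM (u - u') = lM u := by rw [GUB_lM_add]; congr 1; ring
      have e3 : z⁻¹ * (γ' : SL(2, ℝ)) * (g * lM u') * lM (u - u') = z⁻¹ * (γ' : SL(2, ℝ)) * (g * lM u) := by
        rw [← e2]; group
      rw [e3]
      push_cast
      group
    rw [e1] at key
    have hg : γ' = γ := by
      have := hX z (γ' * γ⁻¹) key
      exact mul_inv_eq_one.mp this
    rw [hg] at hγ'
    set h1 := z⁻¹ * (γ : SL(2, ℝ)) * (g * lM u) with hh1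
    set h2 := z⁻¹ * (γ : SL(2, ℝ)) * (g * lM u') with hh2
    have e4 : h1⁻¹ * h2 = lM (u' - u) := by
      have e5 : lM u * lM (u' - u) = lM u' := by rw [GUB_lM_add]; congr 1; ring
      rw [hh1, hh2, ← e5]
      group
    have e6 : (h1⁻¹ * h2).1 1 0 = u' - u := by rw [e4]; rfl
    rw [GUB_mul, (GUB_inv h1).2.2.1, (GUB_inv h1).2.2.2] at e6
    obtain ⟨p1, p2, p3, p4⟩ := hγ
    obtain ⟨q1, q2, q3, q4⟩ := hγ'
    have hE : 0 < Real.exp (-n) := Real.exp_pos _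
    have r1 : |h1.1 0 0| ≤ 2 := by
      rw [abs_le] at p1 ⊢
      constructor <;> linarith [p1.1, p1.2]
    have r2 : |h2.1 0 0| ≤ 2 := by
      rw [abs_le] at q1 ⊢
      constructor <;> linarith [q1.1, q1.2]
    have s1 : |h1.1 1 0 * h2.1 0 0| ≤ b * Real.exp (-n) * 2 := by
      rw [abs_mul]
      exact mul_le_mul p4 r2 (abs_nonneg _) (by positivity)
    have s2 : |h1.1 0 0 * h2.1 1 0| ≤ 2 * (b * Real.exp (-n)) := by
      rw [abs_mul]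
      exact mul_le_mul r1 q4 (abs_nonneg _) (by positivity)
    have s3 : b * Real.exp (-n) ≤ 1 / 100 * Real.exp (-n) := mul_le_mul_of_nonneg_right hb2 hE.le
    have e7 : u - u' = h1.1 1 0 * h2.1 0 0 - h1.1 0 0 * h2.1 1 0 := by linarith
    rw [e7]
    calc |h1.1 1 0 * h2.1 0 0 - h1.1 0 0 * h2.1 1 0| ≤ |h1.1 1 0 * h2.1 0 0| + |h1.1 0 0 * h2.1 1 0| := abs_sub _ _
      _ ≤ Real.exp (-n) / 2 := by linarith
  obtain ⟨S, hS, hS2⟩ := GUB_cover (fun u => 0 ≤ u ∧ u ≤ 1 ∧ ∃ γ : Γ, bq b b (b * Real.exp (-n)) (z⁻¹ * (γ : SL(2, ℝ)) * (g * lM u))) 0 1 c (Real.exp (-n)) hc0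
    (fun u hu => ⟨hu.1, by linarith [hu.2.1]⟩) hkey
  exact ⟨S, hS, fun u h0 h1 h2 => hS2 u ⟨h0, h1, h2⟩⟩

end Pool.Agent.HF
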